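import Pool.Agent.Q29.AG.Main

/-!
# Polynomially bounded but not polynomial automorphic growth

The definitions (word length, length of an orbit, automorphic growth function, the relations `≼`
and `∼` between functions, polynomially bounded and polynomial growth rates) are in
`Pool.Agent.Q29.AG.Defs`.  The example is the semidirect product of a Heisenberg group
`ℤ[i] × ℤ` and the group of the units of the Gaussian integers `ℤ[i]`; its automorphic growth is
at least the sum of the greatest common divisors of the pairs `x, y ≤ n` (up to constants), and
at most `n² log n` (up to constants).
-/

namespace Pool.Agent.Results.MP_eff972_al.NotPolynomial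

open Q29.AG

/-- There is a finitely generated group whose automorphic growth rate (with respect to every
finite generating set) is polynomially bounded but not polynomial. -/
theorem result : ∃ (G : Type) (_ : Group G), Group.FG G ∧
    ∀ S : Set G, S.Finite → Subgroup.closure S = ⊤ →
      PolynomiallyBounded (autGrowth S) ∧ ¬ IsPolynomial (autGrowth S) :=
  ⟨W, inferInstance, Group.fg_iff.mpr ⟨_, W.closure_std, by simp⟩, fun _ hSf hS =>
    ⟨W.pos_autGrowth hSf hS, W.not_polynomial hSf hS⟩⟩

end Pool.Agent.Results.MP_eff972_al.NotPolynomial
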